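import Pool.Agent.U52.PN.Main

set_option autoImplicit false

/-!
# Finitely generated normal (and commensurated) subgroups of parafree groups

Outline.  Let `N` be a non-trivial finitely generated commensurated subgroup of infinite index of the
parafree group `P` of rank at least two, with elements `b₁, b₂` of `P` which are part of a basis of
the abelianization.  Homomorphisms of `P` to nilpotent groups can be prescribed on a basis
(`Pool.Agent.U52.PN.t_PF`), so derivations of `P` with values in `ℂ[G]`, `G` a finite `p`-quotient,
can be prescribed at `b₁` and `b₂` (`t_DER`), and `P` is residually a finite `p`-group (`t_RP`).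
Let `Γ` be a finitely generated subgroup which contains `N`, `b₁`, `b₂` and `m` elements in different
cosets of `N`.  By approximation the space of `ℓ²`-derivations of `Γ` which vanish at a fixed element
of infinite order of `N` has von Neumann dimension at least one.  Such a derivation is determined by
the restrictions to `N` of its values at the generators of `N`, so `m` is at most the number of the
generators (`t_CMP`, `index_bound`).
-/

namespace Pool.Agent.Results.MP_f3dc04_al.CommensuratedSubgroups

/-- `P` is parafree: the intersection of the terms of the lower central series is trivial, and for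
some set `X` all lower central quotients of `P` are isomorphic to those of the free group on `X`.
(`lowerCentralSeries n` is `γ_{n+1}`; nothing is assumed on the cardinality of `X`.) -/
def Parafree (P : Type) [Group P] : Prop :=
  (∀ x : P, (∀ n : ℕ, x ∈ (⊤ : Subgroup P).lowerCentralSeries n) → x = 1) ∧
  ∃ X : Type, ∀ n : ℕ, Nonempty ((P ⧸ (⊤ : Subgroup P).lowerCentralSeries n) ≃*
    (FreeGroup X ⧸ (⊤ : Subgroup (FreeGroup X)).lowerCentralSeries n))

/-- `N` is commensurated: `N ∩ g N g⁻¹` has finite index in `N` for every `g`. -/
def Commensurated {P : Type} [Group P] (N : Subgroup P) : Prop :=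
  ∀ g : P, (N.map (MulAut.conj g).toMonoidHom).relIndex N ≠ 0

/-- A non-trivial subgroup of infinite index of a parafree group which is normal or, more generally,
commensurated, is not finitely generated. -/
theorem result (P : Type) [Group P] (hP : Parafree P) (N : Subgroup P)
    (hN : N.Normal ∨ Commensurated N) (h1 : N ≠ ⊥) (hind : N.index = 0) : ¬ N.FG := by
  obtain ⟨hres, X, hX⟩ := hP
  intro hfg
  refine Pool.Agent.U52.PN.main P X hX hres N ?_ h1 hfg hind
  rcases hN with hN | hN
  · intro g
    have h2 : N.map (MulAut.conj g).toMonoidHom = N := by
      ext x
      constructor
      · rintro ⟨y, hy, rfl⟩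
        exact hN.conj_mem y hy g
      · intro hx
        refine ⟨g⁻¹ * x * g, ?_, ?_⟩
        · have := hN.conj_mem x hx g⁻¹
          rwa [inv_inv] at this
        · change g * (g⁻¹ * x * g) * g⁻¹ = x
          group
    rw [h2, Subgroup.relIndex_self]
    exact one_ne_zero
  · exact hN

end Pool.Agent.Results.MP_f3dc04_al.CommensuratedSubgroups
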